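import Mathlib
import Pool.Agent.Lib.helper6.Dist

set_option autoImplicit false

open SimpleGraph

namespace Pool.Agent.Results.MP_824d98_co.Example

abbrev P := Fin 6 × Fin 6
abbrev V := P × Fin 2

def sg (p : P) : Fin 2 := if p.1 = 0 ∨ p.2 = 0 ∨ p.1 + p.2 = 0 then 0 else 1

def S (a : V) : Prop := a.1 ≠ 0 ∧ a.2 = sg a.1

instance : DecidablePred S := fun a => by unfold S; infer_instance

lemma S_neg : ∀ a : V, S a → S (-a) := by decide +kernel

def G : SimpleGraph V where
  Adj u v := S (v - u)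
  symm := ⟨fun u v h => by have := S_neg _ h; rwa [neg_sub] at this⟩
  loopless := ⟨fun u h => by rw [sub_self] at h; exact h.1 rfl⟩

def D (a : V) : ℕ := if a = 0 then 0 else if S a then 1 else if a = (0, 1) then 3 else 2

lemma hD (u v : V) : G.dist u v = D (v - u) := by
  have k1 : ∀ a b : V, S (b - a) → D b ≤ D a + 1 := by decide +kernel
  have k2 : ∀ b : V, b = 0 ∨ ∃ a, S (b - a) ∧ D a + 1 = D b := by decide +kernel
  refine (Pool.Agent.Lib.helper6.dist_eq_of_cert G (fun u v => D (v - u)) ?_ ?_ ?_ u v).2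
  · intro u; simp [D]
  · intro u v w h
    exact k1 _ _ (by rw [sub_sub_sub_cancel_right]; exact h)
  · intro u v
    rcases k2 (v - u) with h | ⟨a, h1, h2⟩
    · exact Or.inl (sub_eq_zero.1 h).symm
    · refine Or.inr ⟨u + a, ?_, by simpa using h2⟩
      show S (v - (u + a))
      rwa [← sub_sub]

abbrev W := {p : P // p ≠ 0}

def e (p : P) : V := (p, sg p)

def A (p q : P) : Prop := S (e q - e p)

instance : DecidableRel A := fun p q => by unfold A; infer_instance

def H : SimpleGraph W := G.comap (fun p => e p.1)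

instance : DecidableRel H.Adj := fun p q => (inferInstance : Decidable (A p.1 q.1))

lemma iso (x c : V) (k : ℕ) (h1 : ∀ p : P, p ≠ 0 → D (e p + c) = k)
    (h2 : ∀ a : V, D a = k → a.1 ≠ 0 ∧ a = e a.1 + c) :
    Nonempty (G.induce {y | G.dist x y = k} ≃g H) := by
  let f : W → {y | G.dist x y = k} := fun p => ⟨x + (e p.1 + c), by
    show G.dist _ _ = k
    rw [hD, add_sub_cancel_left]; exact h1 _ p.2⟩
  have hf : Function.Bijective f := by
    constructor
    · intro p q h
      have h3 : x + (e p.1 + c) = x + (e q.1 + c) := congrArg Subtype.val h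
      have h4 := add_right_cancel (add_left_cancel h3)
      exact Subtype.ext (congrArg Prod.fst h4)
    · rintro ⟨y, hy⟩
      have h3 : D (y - x) = k := by rw [← hD]; exact hy
      obtain ⟨h4, h5⟩ := h2 _ h3
      refine ⟨⟨_, h4⟩, Subtype.ext ?_⟩
      show x + (e (y - x).1 + c) = y
      rw [← h5]; abel
  refine ⟨Iso.symm ⟨Equiv.ofBijective f hf, ?_⟩⟩
  intro p q
  show S ((x + (e q.1 + c)) - (x + (e p.1 + c))) ↔ S (e q.1 - e p.1)
  rw [add_sub_add_left_eq_sub, add_sub_add_right_eq_sub]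

def NoSix (u : P) : Prop :=
  ∀ a : P, a ≠ 0 → A u a → ∀ b : P, b ≠ 0 → A u b → A a b →
    ∀ c : P, c ≠ 0 → A u c → A a c → A b c →
    ∀ d : P, d ≠ 0 → A u d → A a d → A b d → A c d →
    ∀ f : P, f ≠ 0 → A u f → A a f → A b f → A c f → ¬ A d f

set_option synthInstance.maxSize 4096 in
instance : DecidablePred NoSix := fun u => by unfold NoSix; infer_instance

lemma noSix : NoSix (0, 1) := by decide +kernel

theorem result : ∃ (W : Type) (_ : Fintype W) (H : SimpleGraph W),
    (∃ k : ℕ, ∀ v, (H.neighborSet v).ncard = k) ∧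
    (¬ ∀ v w, ∃ φ : H ≃g H, φ v = w) ∧
    ∃ (V : Type) (_ : Fintype V) (_ : Nonempty V) (G : SimpleGraph V), ∀ x,
      Nonempty (G.induce {y | G.dist x y = 1} ≃g H) ∧
      Nonempty (G.induce {y | G.dist x y = 2} ≃g H) := by
  refine ⟨W, inferInstance, H, ⟨18, ?_⟩, ?_, V, inferInstance, inferInstance, G, fun x =>
    ⟨iso x 0 1 (by decide +kernel) (by decide +kernel),
     iso x (0, 1) 2 (by decide +kernel) (by decide +kernel)⟩⟩
  · intro v
    rw [Set.ncard_eq_toFinset_card', Set.toFinset_card, card_neighborSet_eq_degree]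
    revert v
    decide +kernel
  · intro h
    obtain ⟨φ, hφ⟩ := h ⟨(0, 3), by decide⟩ ⟨(0, 1), by decide⟩
    have m : ∀ p q : W, H.Adj p q → A (φ p).1 (φ q).1 := fun p q hpq => φ.map_rel_iff.2 hpq
    have m0 : ∀ q : W, H.Adj ⟨(0, 3), by decide⟩ q → A (0, 1) (φ q).1 := by
      intro q hq
      have := m _ _ hq
      rwa [hφ] at this
    exact noSix (φ ⟨(1, 1), by decide⟩).1 (φ _).2 (m0 _ (by decide))
      (φ ⟨(1, 4), by decide⟩).1 (φ _).2 (m0 _ (by decide)) (m _ _ (by decide))
      (φ ⟨(3, 0), by decide⟩).1 (φ _).2 (m0 _ (by decide)) (m _ _ (by decide)) (m _ _ (by decide))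
      (φ ⟨(4, 1), by decide⟩).1 (φ _).2 (m0 _ (by decide)) (m _ _ (by decide)) (m _ _ (by decide))
      (m _ _ (by decide))
      (φ ⟨(3, 3), by decide⟩).1 (φ _).2 (m0 _ (by decide)) (m _ _ (by decide)) (m _ _ (by decide))
      (m _ _ (by decide)) (m _ _ (by decide))

end Pool.Agent.Results.MP_824d98_co.Example
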